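import Pool.Agent.H59.KA.Stmts
import Pool.Agent.H27.KP.STC

/-!
# Project KA, module QST: one short step
-/

set_option autoImplicit false
set_option linter.unusedSectionVars false

open MeasureTheory Set Filter Topology
open scoped ContDiff

namespace Pool.Agent.H59.KA

open Pool.Agent.H84 hiding cv mn
open Pool.Agent.H84.Sym Pool.Agent.H84.Sym.P2x Pool.Agent.H19.KL
open Pool.Agent.H73.KG Pool.Agent.H20.KH Pool.Agent.H78.KP

/-- the elementary inequality for the weights -/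
theorem qst_w {t s η ρ : ℝ} (ht : 0 < t) (hs : 0 < s) (hρ : 0 < ρ) :
    (t + η * s) / (t / ρ + s) ≤ ρ + s * η ^ 2 / (4 * t) := by
  have h1 : 0 < t / ρ + s := by positivity
  rw [div_le_iff₀ h1]
  have h2 : (ρ + s * η ^ 2 / (4 * t)) * (t / ρ + s) =
      t + ρ * s + s * η ^ 2 / (4 * ρ) + s ^ 2 * η ^ 2 / (4 * t) := by
    field_simp
    ring
  rw [h2]
  have h3 : 0 ≤ s ^ 2 * η ^ 2 / (4 * t) := by positivity
  have h4 : 0 ≤ s * (η - 2 * ρ) ^ 2 / (4 * ρ) := by positivity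
  have h5 : s * (η - 2 * ρ) ^ 2 / (4 * ρ) = s * η ^ 2 / (4 * ρ) - η * s + ρ * s := by
    field_simp
    ring
  linarith

theorem qst_thm (E : Type) [NormedAddCommGroup E] [InnerProductSpace ℝ E]
    [FiniteDimensional ℝ E] [MeasurableSpace E] [BorelSpace E] (hQWH : QWHStmt E)
    (hQAF : QAFStmt E) (hQEF : QEFStmt E) (hQEV : QEVStmt E) (hQPH : QPHStmt)
    (hQGN : QGNStmt E) (hQGR : QGRStmt E) (hPWB : PWBStmt E) (hBAY : BAYStmt E)
    (hCVR : CVRStmt E) (hRGC : RGCStmt E) (hBAS : BASStmt E) : QSTStmt E := by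
  intro t0 ht0 ht01
  obtain ⟨C1, hC1, hEF⟩ := hQEF t0 ht0 ht01
  obtain ⟨C2, hC2, hEV⟩ := hQEV t0 ht0 ht01
  refine ⟨max C1 C2, hC1.trans (le_max_left _ _), ?_⟩
  intro κ hκ hTK t s η g L ht ht1 hs hs1 hη he1 hg hL hGQ hfin
  by_contra hcon
  have ht' : 0 < t := ht0.trans_le ht
  obtain ⟨ι, _, _, b, ρ, U, B, c, hW, hB, hlt⟩ := hQWH t L ht' hcon
  set C : ℝ := max C1 C2 with hC
  set e : ℝ := s * η ^ 2 / (4 * t) with he
  have he0 : 0 ≤ e := by positivity
  have hUP := hW.pp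
  obtain ⟨⟨CU, hU⟩, hprob⟩ := id hW.pp
  have hcov : CovLe U 1 := by
    refine hBAS.2.2.2.2.2.2 U t hUP ι b 1 ?_
    have e1 : (1:ℝ) • (1 : Matrix ι ι ℝ) - cm b U = Matrix.diagonal ρ := by
      rw [hW.cov, one_smul, ← Matrix.diagonal_one, Matrix.diagonal_sub]
      congr 1
      ext i
      ring
    rw [e1]
    exact Matrix.PosSemidef.diagonal fun i => (hW.pos i).le
  obtain ⟨-, hGq, -, -⟩ := hQGR ι b B c hB
  set N : ℝ := N2 B (qv b B c U) with hN
  have hN0 : 0 ≤ N := by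
    rw [hN]
    unfold N2
    positivity
  set V : ℝ := cv U (qf b B c) (qf b B c) with hV
  have h1 := hEV t ht ht1 U hUP hcov ι b B c s hB hs (by linarith)
  have h2 := hEF κ hκ hTK t ht ht1 ι b ρ U hW B c e s hB he0 he1 hs (by linarith)
  -- pointwise bound
  have h3 : ∀ θ, cv (pw U s θ) (qf b B c) (qf b B c) ≤
      g * Ph (cm b (pw U s θ) + Matrix.diagonal (fun i => ρ i + e)) B (qv b B c (pw U s θ)) := by
    intro θ
    have hPs := (hPWB U t hUP).1 s θ hs.le
    have hβ : ∀ i, 0 < t / ρ i + s := fun i => add_pos (div_pos ht' (hW.pos i)) hs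
    have h4 := hQAF (t + η * s) g (by positivity) hGQ (pw U s θ) (t + s) hPs ι b
      (fun i => t / ρ i + s) hβ (fun x v => by
        rw [STC_hess hU hs.le θ x v]
        have h5 := hW.hess x v
        have h6 : ∑ i, (t / ρ i + s) * (inner ℝ (b i) v) ^ 2 =
            t * ∑ i, (inner ℝ (b i) v) ^ 2 / ρ i + s * ‖v‖ ^ 2 := by
          rw [← b.sum_sq_inner_right v, Finset.mul_sum, Finset.mul_sum,
            ← Finset.sum_add_distrib]
          refine Finset.sum_congr rfl fun i _ => ?_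
          ring
        rw [h6]
        linarith) B c hB
    refine h4.trans (mul_le_mul_of_nonneg_left ?_ hg)
    have h7 : cm b (pw U s θ) + Matrix.diagonal (fun i => ρ i + e) =
        (cm b (pw U s θ) + Matrix.diagonal (fun i => (t + η * s) / (t / ρ i + s))) +
        Matrix.diagonal (fun i => ρ i + e - (t + η * s) / (t / ρ i + s)) := by
      rw [add_assoc, Matrix.diagonal_add]
      congr 2
      ext i
      ring
    rw [h7]
    have hps : (cm b (pw U s θ)).PosSemidef :=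
      (hBAS.2.2.2.2.2.1 (pw U s θ) (t + s) hPs ι b).1
    refine (hQPH ι _ B _ hB).2.2.2 _ (hps.add (Matrix.PosSemidef.diagonal fun i => ?_))
      (Matrix.PosSemidef.diagonal fun i => ?_)
    · exact (div_pos (by positivity) (hβ i)).le
    · exact sub_nonneg.2 (qst_w ht' hs (hW.pos i))
  have g1 : GC (fun θ => cv (pw U s θ) (qf b B c) (qf b B c)) :=
    (hRGC.2.2.2.2.2.1 _ (hCVR U t hUP _ _ hGq hGq) s hs).1
  have g2 : GC (fun θ => Ph (cm b (pw U s θ) + Matrix.diagonal (fun i => ρ i + e)) B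
      (qv b B c (pw U s θ))) :=
    (hRGC.2.2.2.2.2.1 _ (hQGN U t hUP ι b (fun i => ρ i + e) B c hB).1 s hs).1
  obtain ⟨-, -, hmul, -, hmono, -, -⟩ := hBAY U t hUP s hs.le
  have h8 := hmono _ _ g1 ((GC.const g).mul g2) h3
  rw [hmul] at h8
  have h9 := mul_le_mul_of_nonneg_left h2 hg
  have hsq : 0 ≤ Real.sqrt s := Real.sqrt_nonneg s
  have k1 : (1 - s) * V ≤ (g * ((1 + e) ^ 2 + s * (2 * κ + 3) * (1 + C1 * Real.sqrt s)) +
      C2 * s * Real.sqrt s) * N := by
    have : V ≤ g * (((1 + e) ^ 2 + s * (2 * κ + 3) * (1 + C1 * Real.sqrt s)) * N) +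
        s * (V + C2 * Real.sqrt s * N) := by
      refine h1.trans ?_
      have := h8.trans h9
      linarith
    nlinarith [this]
  have k2 : g * ((1 + e) ^ 2 + s * (2 * κ + 3) * (1 + C1 * Real.sqrt s)) +
      C2 * s * Real.sqrt s ≤ (1 - s) * L := by
    refine le_trans ?_ hfin
    have l1 : C1 ≤ C := le_max_left _ _
    have l2 : C2 ≤ C := le_max_right _ _
    gcongr
  have k3 : (1 - s) * V ≤ (1 - s) * L * N := k1.trans (mul_le_mul_of_nonneg_right k2 hN0)
  have k4 : (1 - s) * (L * N) < (1 - s) * V := mul_lt_mul_of_pos_left hlt (by linarith)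
  linarith [mul_assoc (1 - s) L N]

end Pool.Agent.H59.KA
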